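import Pool.Agent.helper84.ZD.SpecA

set_option autoImplicit false

open Complex MeasureTheory

namespace Pool.Agent.ZD

open Pool.Agent.helper84.DM Pool.Agent.helper78.ED Pool.Agent.DH

theorem BLK_kap_mono (x y : ℝ) (h : |x| ≤ |y|) : kap y ≤ kap x := by
  unfold kap
  have h1 : x ^ 2 ≤ y ^ 2 := sq_le_sq.2 h
  apply one_div_le_one_div_of_le
  · positivity
  · linarith

theorem BLK_kap_cont : Continuous kap := by
  unfold kap
  apply Continuous.div continuous_const (by fun_prop)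
  intro x
  positivity

theorem BLK_rho_cont (W : Finset ℝ) : Continuous (rho W) := by
  unfold rho
  fun_prop

theorem BLK_QW_nonneg (W : Finset ℝ) (L : ℕ) : 0 ≤ QW W L := by
  unfold QW
  positivity

theorem BLK (h1 : NPM_stmt) (h2 : GEO_stmt) (h3 : MONW_stmt) : BLK_stmt := by
  refine ⟨512 * Real.pi * Real.exp 5, by positivity, ?_⟩
  intro W X D M L i j hX hL hML hD hd hij hji
  set A := (Finset.Icc 1 M).filter (fun m => 2 ^ i ≤ m ∧ m < 2 ^ (i + 1)) with hA
  set B := (Finset.Icc 1 M).filter (fun m => 2 ^ j ≤ m ∧ m < 2 ^ (j + 1)) with hB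
  have hQ := BLK_QW_nonneg W L
  have hX0 : (0 : ℝ) < X := by linarith
  have hL0 : (0 : ℝ) ≤ L := Nat.cast_nonneg _
  have hmono : ∀ (k : ℕ) (S : Finset ℕ), S = (Finset.Icc 1 M).filter (fun m => 2 ^ k ≤ m ∧ m < 2 ^ (k + 1)) →
      (L : ℝ) * ∑ t ∈ W, ∑ t' ∈ W, ‖PL S (t - t')‖ ^ 2 ≤ (2 : ℝ) ^ k * D * QW W L := by
    intro k S hS
    by_cases hk : 2 ^ k ≤ L
    · have h := h3 W (2 ^ k) L S D Nat.one_le_two_pow hk (by
        intro n hn
        rw [hS, Finset.mem_filter] at hn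
        refine ⟨hn.2.1, ?_⟩
        have := hn.2.2
        rw [pow_succ] at this
        omega) hd
      push_cast at h
      exact h
    · have hS0 : S = ∅ := by
        rw [hS, Finset.filter_eq_empty_iff]
        intro n hn hn2
        rw [Finset.mem_Icc] at hn
        omega
      rw [hS0]
      have : ∀ u : ℝ, PL ∅ u = 0 := by intro u; simp [PL]
      simp only [this, norm_zero, ne_eq, OfNat.ofNat_ne_zero, not_false_eq_true, zero_pow,
        Finset.sum_const_zero, mul_zero]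
      positivity
  set h : ℝ := min ((2 : ℝ) ^ i) ((2 : ℝ) ^ j) with hh
  have hhpos : 0 < h := lt_min (by positivity) (by positivity)
  have hi512 : (2 : ℝ) ^ i ≤ 512 * h := by
    rw [hh, mul_min_of_nonneg _ _ (by norm_num)]
    apply le_min
    · have : (0 : ℝ) < 2 ^ i := by positivity
      linarith
    · have : (2 : ℝ) ^ i ≤ 2 ^ (j + 9) := pow_le_pow_right₀ (by norm_num) hij
      rw [pow_add] at this
      linarith
  have hj512 : (2 : ℝ) ^ j ≤ 512 * h := by
    rw [hh, mul_min_of_nonneg _ _ (by norm_num)]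
    apply le_min
    · have : (2 : ℝ) ^ j ≤ 2 ^ (i + 9) := pow_le_pow_right₀ (by norm_num) hji
      rw [pow_add] at this
      linarith
    · have : (0 : ℝ) < 2 ^ j := by positivity
      linarith
  set κ : ℝ := X * Real.exp (-5) * h with hκ
  have hκ0 : 0 < κ := by positivity
  have hstep1 : ∑ m ∈ A, ∑ m' ∈ B,
      ∫ a in (-5 : ℝ)..5, ‖rho W a‖ ^ 2 * kap (X * ((m : ℝ) * Real.exp a - m')) ≤
      ∑ m ∈ A, ∑ m' ∈ B,
      ∫ a in (-5 : ℝ)..5, ‖rho W a‖ ^ 2 * kap (κ * (a - (Real.log m' - Real.log m))) := by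
    apply Finset.sum_le_sum
    intro m hm
    apply Finset.sum_le_sum
    intro m' hm'
    rw [hA, Finset.mem_filter, Finset.mem_Icc] at hm
    rw [hB, Finset.mem_filter, Finset.mem_Icc] at hm'
    have hrc := BLK_rho_cont W
    have hkc := BLK_kap_cont
    apply intervalIntegral.integral_mono_on (by norm_num)
    · apply Continuous.intervalIntegrable
      apply Continuous.mul (by fun_prop)
      exact hkc.comp (by fun_prop)
    · apply Continuous.intervalIntegrable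
      apply Continuous.mul (by fun_prop)
      exact hkc.comp (by fun_prop)
    · intro a ha
      apply mul_le_mul_of_nonneg_left _ (by positivity)
      apply BLK_kap_mono
      have hg := (h2 m m' a h hm.1.1 hm'.1.1 (abs_le.2 ⟨ha.1, ha.2⟩) hhpos.le).1
      have e1 : h ≤ (m : ℝ) := by
        refine (min_le_left _ _).trans ?_
        exact_mod_cast hm.2.1
      have e2 : h ≤ (m' : ℝ) := by
        refine (min_le_right _ _).trans ?_
        exact_mod_cast hm'.2.1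
      have hg' := hg e1 e2
      rw [abs_mul κ, abs_mul X, abs_of_pos hκ0, abs_of_pos hX0, hκ]
      calc X * Real.exp (-5) * h * |a - (Real.log m' - Real.log m)|
          = X * (Real.exp (-5) * h * |a - (Real.log m' - Real.log m)|) := by ring
        _ ≤ X * |(m : ℝ) * Real.exp a - m'| := mul_le_mul_of_nonneg_left hg' hX0.le
  have hA0 : 0 ∉ A := by
    intro h0
    rw [hA, Finset.mem_filter, Finset.mem_Icc] at h0
    omega
  have hB0 : 0 ∉ B := by
    intro h0
    rw [hB, Finset.mem_filter, Finset.mem_Icc] at h0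
    omega
  have hstep2 := h1 W κ A B hκ0 hA0 hB0
  have hstep3 : ∑ t ∈ W, ∑ t' ∈ W, ‖PL A (t - t')‖ * ‖PL B (t - t')‖ ≤
      (∑ t ∈ W, ∑ t' ∈ W, ‖PL A (t - t')‖ ^ 2 + ∑ t ∈ W, ∑ t' ∈ W, ‖PL B (t - t')‖ ^ 2) / 2 := by
    rw [← Finset.sum_add_distrib, Finset.sum_div]
    apply Finset.sum_le_sum
    intro t _
    rw [← Finset.sum_add_distrib, Finset.sum_div]
    apply Finset.sum_le_sum
    intro t' _
    nlinarith [sq_nonneg (‖PL A (t - t')‖ - ‖PL B (t - t')‖)]
  have hmA := hmono i A hA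
  have hmB := hmono j B hB
  have hDQ : 0 ≤ D * QW W L := mul_nonneg hD hQ
  have hstep4 : (L : ℝ) * ((∑ t ∈ W, ∑ t' ∈ W, ‖PL A (t - t')‖ ^ 2 +
      ∑ t ∈ W, ∑ t' ∈ W, ‖PL B (t - t')‖ ^ 2) / 2) ≤ 512 * h * (D * QW W L) := by
    have e1 : (2 : ℝ) ^ i * (D * QW W L) ≤ 512 * h * (D * QW W L) := mul_le_mul_of_nonneg_right hi512 hDQ
    have e2 : (2 : ℝ) ^ j * (D * QW W L) ≤ 512 * h * (D * QW W L) := mul_le_mul_of_nonneg_right hj512 hDQ
    rw [← mul_assoc] at e1 e2
    linarith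
  have hpk : 0 ≤ Real.pi / κ := by positivity
  have hfin : (L : ℝ) * X * ∑ m ∈ A, ∑ m' ∈ B,
      ∫ a in (-5 : ℝ)..5, ‖rho W a‖ ^ 2 * kap (X * ((m : ℝ) * Real.exp a - m')) ≤
      X * (Real.pi / κ) * (512 * h * (D * QW W L)) := by
    calc (L : ℝ) * X * ∑ m ∈ A, ∑ m' ∈ B,
        ∫ a in (-5 : ℝ)..5, ‖rho W a‖ ^ 2 * kap (X * ((m : ℝ) * Real.exp a - m'))
        ≤ (L : ℝ) * X * (Real.pi / κ * ((∑ t ∈ W, ∑ t' ∈ W, ‖PL A (t - t')‖ ^ 2 +
          ∑ t ∈ W, ∑ t' ∈ W, ‖PL B (t - t')‖ ^ 2) / 2)) := by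
          apply mul_le_mul_of_nonneg_left _ (by positivity)
          refine hstep1.trans (hstep2.trans ?_)
          exact mul_le_mul_of_nonneg_left hstep3 hpk
      _ = X * (Real.pi / κ) * ((L : ℝ) * ((∑ t ∈ W, ∑ t' ∈ W, ‖PL A (t - t')‖ ^ 2 +
          ∑ t ∈ W, ∑ t' ∈ W, ‖PL B (t - t')‖ ^ 2) / 2)) := by ring
      _ ≤ _ := mul_le_mul_of_nonneg_left hstep4 (by positivity)
  refine hfin.trans (le_of_eq ?_)
  rw [hκ]
  have e5 : Real.exp (-5) = (Real.exp 5)⁻¹ := Real.exp_neg 5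
  rw [e5]
  have : Real.exp 5 ≠ 0 := (Real.exp_pos 5).ne'
  field_simp

end Pool.Agent.ZD
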